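import Pool.Agent.MP_7e478a_co.Main

set_option autoImplicit false

namespace Pool.Agent.MP_7e478a_co

/-- the cell with first three coordinates `a, b, s` and remaining coordinates `z` -/
def cell {k n : ℕ} (a b s : Fin n) (z : Fin k → Fin n) : Fin (k + 3) → Fin n :=
  Fin.cons a (Fin.cons b (Fin.cons s z))

lemma attacks_vert {k n : ℕ} (a b b' s : Fin n) (z : Fin k → Fin n) (h : (b : ℕ) ≠ b') :
    Attacks (cell a b s z) (cell a b' s z) := by
  refine ⟨((b' : ℕ) : ℤ) - ((b : ℕ) : ℤ), by omega, Fin.cons 0 (Fin.cons 1 0), ?_, ?_, ?_⟩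
  · intro h
    have := congrFun h (Fin.succ 0)
    simp at this
  · intro i
    refine Fin.cases ?_ (fun j => ?_) i
    · simp
    · refine Fin.cases ?_ (fun l => ?_) j <;> simp
  · intro i
    refine Fin.cases ?_ (fun j => ?_) i
    · simp [cell]
    · refine Fin.cases ?_ (fun l => ?_) j
      · simp only [cell, Fin.cons_zero, Fin.cons_succ]; simp
      · simp only [cell, Fin.cons_succ]; simp

lemma attacks_diag {k n : ℕ} (a b a' b' s : Fin n) (z : Fin k → Fin n) (h : (a : ℕ) ≠ a')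
    (h2 : (b' : ℕ) + a = b + a') : Attacks (cell a b s z) (cell a' b' s z) := by
  refine ⟨((a' : ℕ) : ℤ) - ((a : ℕ) : ℤ), by omega, Fin.cons 1 (Fin.cons 1 0), ?_, ?_, ?_⟩
  · intro h
    have := congrFun h 0
    simp at this
  · intro i
    refine Fin.cases ?_ (fun j => ?_) i
    · simp
    · refine Fin.cases ?_ (fun l => ?_) j <;> simp
  · intro i
    refine Fin.cases ?_ (fun j => ?_) i
    · simp [cell]
    · refine Fin.cases ?_ (fun l => ?_) j
      · simp only [cell, Fin.cons_zero, Fin.cons_succ]; omega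
      · simp only [cell, Fin.cons_succ]; simp

lemma tail_injOn {d n : ℕ} (P : Finset (Fin (d + 1) → Fin n)) (hP : NonAttacking P) :
    Set.InjOn (fun p : Fin (d + 1) → Fin n => (Fin.tail p : Fin d → Fin n)) P := by
  intro x hx y hy hxy
  by_contra hne
  apply hP x hx y hy
  have h0 : x 0 ≠ y 0 := by
    intro h0
    apply hne
    funext i
    refine Fin.cases h0 (fun j => ?_) i
    exact congrFun hxy j
  refine ⟨((y 0 : ℕ) : ℤ) - ((x 0 : ℕ) : ℤ), ?_, Fin.cons 1 0, ?_, ?_, ?_⟩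
  · intro h
    apply h0
    apply Fin.ext
    omega
  · intro h
    have := congrFun h 0
    simp at this
  · intro i
    refine Fin.cases ?_ (fun j => ?_) i <;> simp
  · intro i
    refine Fin.cases ?_ (fun j => ?_) i
    · simp
    · have : x j.succ = y j.succ := congrFun hxy j
      simp [this]

/-- a non-attacking set misses every line of a blocked family -/
lemma card_add_le {d n : ℕ} (P : Finset (Fin (d + 1) → Fin n)) (hP : NonAttacking P)
    (B : Finset (Fin d → Fin n)) (hB : ∀ u ∈ P, (Fin.tail u : Fin d → Fin n) ∉ B) :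
    P.card + B.card ≤ n ^ d := by
  have hcard : (P.image (fun p : Fin (d + 1) → Fin n => (Fin.tail p : Fin d → Fin n))).card
      = P.card := Finset.card_image_of_injOn (tail_injOn P hP)
  have hdis : Disjoint (P.image (fun p : Fin (d + 1) → Fin n => (Fin.tail p : Fin d → Fin n))) B := by
    rw [Finset.disjoint_left]
    intro a ha
    obtain ⟨u, hu, rfl⟩ := Finset.mem_image.mp ha
    exact hB u hu
  have h1 := Finset.card_le_univ
    (P.image (fun p : Fin (d + 1) → Fin n => (Fin.tail p : Fin d → Fin n)) ∪ B)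
  rw [Finset.card_union_of_disjoint hdis, hcard] at h1
  simpa using h1

/-- two cells on the modular hyperplane of modulus `p`, close enough, do not attack each other -/
lemma not_attacks_cell {k n p : ℕ} (hp : 2 ^ (k + 3) < p.minFac)
    (a b s a' b' s' : Fin n) (z z' : Fin k → Fin n)
    (ha : (a : ℕ) < p) (ha' : (a' : ℕ) < p) (hs : (s : ℕ) < p) (hs' : (s' : ℕ) < p)
    (hz : ∀ i, (z i : ℕ) < p) (hz' : ∀ i, (z' i : ℕ) < p)
    (hb : (a : ℕ) = a' → (b : ℕ) < b' + p ∧ (b' : ℕ) < b + p)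
    (h1 : (p : ℤ) ∣ ((s : ℕ) : ℤ) - 2 * ((b : ℕ) : ℤ) + 4 * ((a : ℕ) : ℤ) + 8 * wt z)
    (h2 : (p : ℤ) ∣ ((s' : ℕ) : ℤ) - 2 * ((b' : ℕ) : ℤ) + 4 * ((a' : ℕ) : ℤ) + 8 * wt z') :
    ¬ Attacks (cell a b s z) (cell a' b' s' z') := by
  rintro ⟨t, ht, v, hv0, hv, h⟩
  have e0 := h 0
  have e1 := h (Fin.succ 0)
  have e2 := h (Fin.succ (Fin.succ 0))
  have e3 : ∀ i : Fin k, ((z' i : ℕ) : ℤ) - ((z i : ℕ) : ℤ) = t * v i.succ.succ.succ := by
    intro i
    have := h i.succ.succ.succ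
    simpa only [cell, Fin.cons_succ] using this
  simp only [cell, Fin.cons_zero, Fin.cons_succ] at e0 e1 e2
  obtain ⟨S, hS⟩ : ∃ S : ℤ, S = ∑ i : Fin k, (2 : ℤ) ^ (i : ℕ) * v i.succ.succ.succ := ⟨_, rfl⟩
  have hw : wt z' - wt z = t * S := by
    unfold wt
    rw [hS, ← Finset.sum_sub_distrib, Finset.mul_sum]
    apply Finset.sum_congr rfl
    intro i _
    rw [← mul_sub, e3 i]
    ring
  have hSb : |S| < 2 ^ k := hS ▸ weight_bound k _ (fun i => hv i.succ.succ.succ)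
  obtain ⟨W, hW⟩ : ∃ W : ℤ, W = v (Fin.succ (Fin.succ 0)) - 2 * v (Fin.succ 0) + 4 * v 0 + 8 * S :=
    ⟨_, rfl⟩
  have v0 := hv 0
  have v1 := hv (Fin.succ 0)
  have v2 := hv (Fin.succ (Fin.succ 0))
  have hall : v 0 = 0 → v (Fin.succ 0) = 0 → v (Fin.succ (Fin.succ 0)) = 0 →
      (∀ i : Fin k, v i.succ.succ.succ = 0) → False := by
    intro a0 a1 a2 a3
    apply hv0
    funext i
    refine Fin.cases a0 (fun j => ?_) i
    refine Fin.cases a1 (fun l => ?_) j
    exact Fin.cases a2 (fun r => a3 r) l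
  have hW0 : W ≠ 0 := by
    intro h0
    have a2 : v (Fin.succ (Fin.succ 0)) = 0 := by omega
    have a1 : v (Fin.succ 0) = 0 := by omega
    have a0 : v 0 = 0 := by omega
    have a3 : S = 0 := by omega
    have a4 := weight_zero k _ (fun i => hv i.succ.succ.succ) (hS ▸ a3)
    exact hall a0 a1 a2 (fun i => congrFun a4 i)
  have hWb : |W| < 2 ^ (k + 3) := by
    rw [abs_lt] at hSb ⊢
    rw [pow_add]
    constructor <;> omega
  have hlt : W.natAbs < p.minFac := by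
    have h1 : ((W.natAbs : ℕ) : ℤ) < ((2 ^ (k + 3) : ℕ) : ℤ) := by
      rw [Int.natCast_natAbs]; push_cast; exact hWb
    have h2 : W.natAbs < 2 ^ (k + 3) := by exact_mod_cast h1
    omega
  have hcop : p.Coprime W.natAbs := Nat.coprime_of_lt_minFac (Int.natAbs_ne_zero.mpr hW0) hlt
  have hdvd : (p : ℤ) ∣ t * W := by
    have h3 := dvd_sub h2 h1
    have h4 : t * W = ((s' : ℕ) : ℤ) - 2 * ((b' : ℕ) : ℤ) + 4 * ((a' : ℕ) : ℤ) + 8 * wt z' -
        (((s : ℕ) : ℤ) - 2 * ((b : ℕ) : ℤ) + 4 * ((a : ℕ) : ℤ) + 8 * wt z) := by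
      rw [hW]
      linear_combination (-1 : ℤ) * e2 + 2 * e1 - 4 * e0 - 8 * hw
    rw [h4]; exact h3
  have hcop' : IsCoprime (p : ℤ) W := by
    rw [Int.isCoprime_iff_gcd_eq_one]
    simpa [Int.gcd] using hcop
  have hnt : (p : ℤ) ∣ t := hcop'.dvd_of_dvd_mul_right hdvd
  have hle : (p : ℤ) ≤ |t| := Int.le_of_dvd (abs_pos.mpr ht) ((dvd_abs _ _).mpr hnt)
  have key : ∀ (x y : ℕ) (w : ℤ), (w = -1 ∨ w = 0 ∨ w = 1) → x < y + p → y < x + p →
      (y : ℤ) - (x : ℤ) = t * w → w = 0 := by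
    intro x y w hw hx hy e
    rcases hw with h6 | h6 | h6
    · rw [h6] at e
      rcases abs_cases t with h7 | h7 <;> omega
    · exact h6
    · rw [h6] at e
      rcases abs_cases t with h7 | h7 <;> omega
  have a0 : v 0 = 0 := key _ _ _ v0 (by omega) (by omega) e0
  have haa : (a : ℕ) = a' := by
    rw [a0] at e0
    omega
  have a1 : v (Fin.succ 0) = 0 := key _ _ _ v1 (hb haa).1 (hb haa).2 e1
  have a2 : v (Fin.succ (Fin.succ 0)) = 0 := key _ _ _ v2 (by omega) (by omega) e2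
  refine hall a0 a1 a2 (fun i => key _ _ _ (hv _) ?_ ?_ (e3 i))
  · have := hz i; omega
  · have := hz' i; omega

/-- The core construction: `t` planes, `p` queens in each, block `t * (n - p - K)` axis lines. -/
lemma core {k n p K : ℕ} (hp : 2 ^ (k + 3) < p.minFac) (hp0 : 0 < p) (hK : 2 * K ≤ p)
    (hn : p + K ≤ n) (hn2 : 2 * n ≤ 3 * p) (t : ℕ) (ht : t ≤ K * p ^ k) :
    ∃ Q : Finset (Fin (k + 3) → Fin n), NonAttacking Q ∧ Q.card ≤ t * p ∧
      ∀ P : Finset (Fin (k + 3) → Fin n), Q ⊆ P → NonAttacking P →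
        P.card + t * (n - p - K) ≤ n ^ (k + 2) := by
  have hp0' : (0 : ℤ) < p := by exact_mod_cast hp0
  have hpn : p ≤ n := by omega
  obtain ⟨T, -, hT⟩ := Finset.exists_subset_card_eq
    (s := (Finset.univ : Finset (Fin K × (Fin k → Fin p)))) (n := t) (by simpa using ht)
  let up : Fin p → Fin n := Fin.castLE hpn
  let zz : (Fin k → Fin p) → (Fin k → Fin n) := fun z i => up (z i)
  let sg : Fin K × (Fin k → Fin p) → Fin n := fun c =>
    ⟨((2 * ((c.1 : ℕ) : ℤ) - 8 * wt (zz c.2)) % p).toNat, by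
      have h1 := Int.emod_lt_of_pos (2 * ((c.1 : ℕ) : ℤ) - 8 * wt (zz c.2)) hp0'
      have h2 := Int.emod_nonneg (2 * ((c.1 : ℕ) : ℤ) - 8 * wt (zz c.2)) hp0'.ne'
      omega⟩
  have hsg : ∀ c, ((sg c : ℕ) : ℤ) = (2 * ((c.1 : ℕ) : ℤ) - 8 * wt (zz c.2)) % p := by
    intro c
    exact Int.toNat_of_nonneg (Int.emod_nonneg _ hp0'.ne')
  have hsglt : ∀ c, (sg c : ℕ) < p := by
    intro c
    have h1 := Int.emod_lt_of_pos (2 * ((c.1 : ℕ) : ℤ) - 8 * wt (zz c.2)) hp0'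
    have h2 := hsg c
    omega
  have hsgd : ∀ c, (p : ℤ) ∣ ((sg c : ℕ) : ℤ) - 2 * ((c.1 : ℕ) : ℤ) + 8 * wt (zz c.2) := by
    intro c
    have h4 := Int.emod_add_mul_ediv (2 * ((c.1 : ℕ) : ℤ) - 8 * wt (zz c.2)) p
    rw [hsg c]
    exact ⟨-((2 * ((c.1 : ℕ) : ℤ) - 8 * wt (zz c.2)) / p), by linarith⟩
  let yy : Fin K → Fin p → Fin n := fun c x =>
    ⟨c + (2 * x) % p, by
      have h1 := Nat.mod_lt (2 * (x : ℕ)) hp0
      have h2 := c.isLt
      omega⟩
  have hyy : ∀ c x, (yy c x : ℕ) = c + (2 * x) % p := fun _ _ => rfl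
  have hup : ∀ x, (up x : ℕ) = x := fun _ => rfl
  let q : (Fin K × (Fin k → Fin p)) × Fin p → (Fin (k + 3) → Fin n) := fun c =>
    cell (up c.2) (yy c.1.1 c.2) (sg c.1) (zz c.1.2)
  have hrel : ∀ (c : Fin K × (Fin k → Fin p)) (x : Fin p),
      (p : ℤ) ∣ ((sg c : ℕ) : ℤ) - 2 * ((yy c.1 x : ℕ) : ℤ) + 4 * ((up x : ℕ) : ℤ)
        + 8 * wt (zz c.2) := by
    intro c x
    have h1 := hsgd c
    have h2 := Nat.mod_add_div (2 * (x : ℕ)) p
    have h3 : (((2 * (x : ℕ)) % p : ℕ) : ℤ) + (p : ℤ) * (((2 * (x : ℕ)) / p : ℕ) : ℤ)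
        = 2 * ((x : ℕ) : ℤ) := by exact_mod_cast h2
    have h4 : ((yy c.1 x : ℕ) : ℤ) = ((c.1 : ℕ) : ℤ) + (((2 * (x : ℕ)) % p : ℕ) : ℤ) := by
      rw [hyy]; push_cast; ring
    have h5 : ((sg c : ℕ) : ℤ) - 2 * ((yy c.1 x : ℕ) : ℤ) + 4 * ((up x : ℕ) : ℤ) + 8 * wt (zz c.2)
        = (((sg c : ℕ) : ℤ) - 2 * ((c.1 : ℕ) : ℤ) + 8 * wt (zz c.2))
          + (p : ℤ) * (2 * (((2 * (x : ℕ)) / p : ℕ) : ℤ)) := by
      rw [h4, hup]
      linear_combination (-2 : ℤ) * h3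
    rw [h5]
    exact dvd_add h1 (Dvd.intro _ rfl)
  refine ⟨(T ×ˢ Finset.univ).image q, ?_, ?_, ?_⟩
  · intro x hx y hy
    obtain ⟨c, -, rfl⟩ := Finset.mem_image.mp hx
    obtain ⟨c', -, rfl⟩ := Finset.mem_image.mp hy
    refine not_attacks_cell hp _ _ _ _ _ _ _ _ c.2.isLt c'.2.isLt (hsglt _) (hsglt _)
      (fun i => (c.1.2 i).isLt) (fun i => (c'.1.2 i).isLt) ?_ (hrel _ _) (hrel _ _)
    intro h
    rw [hup, hup] at h
    rw [hyy, hyy, h]
    have h1 := c.1.1.isLt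
    have h2 := c'.1.1.isLt
    omega
  · refine le_trans Finset.card_image_le ?_
    rw [Finset.card_product, hT]
    simp
  · intro P hQP hP
    let ln : (Fin K × (Fin k → Fin p)) × Fin (n - p - K) → (Fin (k + 2) → Fin n) := fun c =>
      Fin.cons (⟨p + K + c.2, by have := c.2.isLt; omega⟩ : Fin n) (Fin.cons (sg c.1) (zz c.1.2))
    have hinj : Function.Injective ln := by
      rintro ⟨⟨c, z⟩, j⟩ ⟨⟨c', z'⟩, j'⟩ h
      have e0 := congrFun h 0
      have e1 := congrFun h (Fin.succ 0)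
      have e2 : ∀ i : Fin k, zz z i = zz z' i := by
        intro i
        have := congrFun h i.succ.succ
        simpa only [ln, Fin.cons_succ] using this
      simp only [ln, Fin.cons_zero, Fin.cons_succ] at e0 e1
      have hj : j = j' := by
        apply Fin.ext
        have := congrArg Fin.val e0
        simp only at this
        omega
      have hz : z = z' := by
        funext i
        exact Fin.castLE_injective hpn (e2 i)
      subst hz
      have hc : c = c' := by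
        apply Fin.ext
        have h1 := hsgd (c, z)
        have h2 := hsgd (c', z)
        rw [e1] at h1
        have h3 := dvd_sub h1 h2
        have h4 : ((sg (c', z) : ℕ) : ℤ) - 2 * ((c : ℕ) : ℤ) + 8 * wt (zz z)
            - (((sg (c', z) : ℕ) : ℤ) - 2 * ((c' : ℕ) : ℤ) + 8 * wt (zz z))
            = 2 * ((c' : ℕ) : ℤ) - 2 * ((c : ℕ) : ℤ) := by ring
        simp only at h3
        rw [h4] at h3
        have h5 := c.isLt
        have h6 := c'.isLt
        have h7 := Int.eq_zero_of_abs_lt_dvd h3 (by rw [abs_lt]; constructor <;> omega)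
        omega
      rw [hc, hj]
    have hcard : ((T ×ˢ Finset.univ).image ln).card = t * (n - p - K) := by
      rw [Finset.card_image_of_injective _ hinj, Finset.card_product, hT]
      simp
    rw [← hcard]
    apply card_add_le P hP
    intro u hu hB
    obtain ⟨⟨c, j⟩, hc, hcu⟩ := Finset.mem_image.mp hB
    have hcT : c ∈ T := (Finset.mem_product.mp hc).1
    have hq : ∀ x : Fin p, q (c, x) ∈ P := fun x =>
      hQP (Finset.mem_image.mpr ⟨(c, x), Finset.mem_product.mpr ⟨hcT, Finset.mem_univ _⟩, rfl⟩)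
    have hj := j.isLt
    have hc1 := c.1.isLt
    obtain ⟨a, hu'⟩ : ∃ a : Fin n,
        u = cell a (⟨p + K + j, by omega⟩ : Fin n) (sg c) (zz c.2) := by
      have h1 := Fin.cons_self_tail u
      rw [← hcu] at h1
      exact ⟨u 0, h1.symm⟩
    have hx := a.isLt
    rw [hu'] at hu
    by_cases h0 : (a : ℕ) < p
    · apply hP _ (hq ⟨a, h0⟩) _ hu
      have h2 : up ⟨a, h0⟩ = a := Fin.ext rfl
      simp only [q, h2]
      apply attacks_vert
      rw [hyy]
      have h3 := Nat.mod_lt (2 * (a : ℕ)) hp0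
      simp only
      omega
    · by_cases h4 : (a : ℕ) + c.1 ≤ p + K + j
      · have h5 : p + K + j - (a + c.1) < p := by omega
        apply hP _ (hq ⟨_, h5⟩) _ hu
        simp only [q]
        have h6 : (2 * (p + K + j - (a + c.1))) % p = 2 * (p + K + j - (a + c.1)) :=
          Nat.mod_eq_of_lt (by omega)
        apply attacks_diag
        · rw [hup]; simp only; omega
        · rw [hyy, hup]; simp only; rw [h6]; omega
      · have h5 : p + (p + K + j) - (a + c.1) < p := by omega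
        apply hP _ (hq ⟨_, h5⟩) _ hu
        simp only [q]
        have h6 : (2 * (p + (p + K + j) - (a + c.1))) % p
            = 2 * (p + (p + K + j) - (a + c.1)) - p := by
          have h7 : 2 * (p + (p + K + j) - (a + c.1))
              = (2 * (p + (p + K + j) - (a + c.1)) - p) + p := by omega
          rw [h7, Nat.add_mod_right, Nat.add_sub_cancel]
          exact Nat.mod_eq_of_lt (by omega)
        apply attacks_diag
        · rw [hup]; simp only; omega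
        · rw [hyy, hup]; simp only; rw [h6]; omega

lemma minFac_gt (m a : ℕ) (ha : 0 < a) : m < (m.factorial * a + 1).minFac := by
  by_contra h
  have hpos := Nat.factorial_pos m
  have h1 : m.factorial * a + 1 ≠ 1 := by
    have := Nat.mul_pos hpos ha
    omega
  have h2 := Nat.minFac_prime h1
  have h3 : (m.factorial * a + 1).minFac ∣ m.factorial :=
    Nat.dvd_factorial h2.pos (by omega)
  have h4 := (Nat.dvd_add_right (Dvd.dvd.mul_right h3 a)).mp (Nat.minFac_dvd _)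
  exact h2.one_lt.ne' (Nat.dvd_one.mp h4)

lemma pow_le_add (q n L : ℕ) (h1 : q ≤ n) (h2 : n ≤ q + L) :
    ∀ k : ℕ, n ^ (k + 1) ≤ q ^ (k + 1) + (k + 1) * L * n ^ k := by
  intro k
  induction k with
  | zero => simpa using h2
  | succ k ih =>
    have h3 : q ^ (k + 1) ≤ n ^ (k + 1) := Nat.pow_le_pow_left h1 _
    calc n ^ (k + 1 + 1) = n * n ^ (k + 1) := by ring
      _ ≤ n * (q ^ (k + 1) + (k + 1) * L * n ^ k) := Nat.mul_le_mul_left _ ih
      _ = n * q ^ (k + 1) + (k + 1) * L * n ^ (k + 1) := by ring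
      _ ≤ (q + L) * q ^ (k + 1) + (k + 1) * L * n ^ (k + 1) :=
          Nat.add_le_add_right (Nat.mul_le_mul_right _ h2) _
      _ = q ^ (k + 1 + 1) + L * q ^ (k + 1) + (k + 1) * L * n ^ (k + 1) := by ring
      _ ≤ q ^ (k + 1 + 1) + L * n ^ (k + 1) + (k + 1) * L * n ^ (k + 1) :=
          Nat.add_le_add_right (Nat.add_le_add_left (Nat.mul_le_mul_left _ h3) _) _
      _ = q ^ (k + 1 + 1) + (k + 1 + 1) * L * n ^ (k + 1) := by ring

lemma exists_big {d n q : ℕ} (hq : 2 ^ (d + 1) < q.minFac) (hq0 : 0 < q) (hqn : q ≤ n) :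
    ∃ S : Finset (Fin (d + 1) → Fin n), NonAttacking S ∧ S.card = q ^ d := by
  obtain ⟨S, hS, hc⟩ := exists_solution hq hq0
  let f : (Fin (d + 1) → Fin q) → (Fin (d + 1) → Fin n) := fun x i => Fin.castLE hqn (x i)
  have hf : Function.Injective f := by
    intro x y h
    funext i
    exact Fin.castLE_injective hqn (congrFun h i)
  refine ⟨S.image f, ?_, by rw [Finset.card_image_of_injective _ hf, hc]⟩
  intro x hx y hy
  obtain ⟨x', hx', rfl⟩ := Finset.mem_image.mp hx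
  obtain ⟨y', hy', rfl⟩ := Finset.mem_image.mp hy
  exact hS x' hx' y' hy'

theorem defect (k : ℕ) : ∃ K N : ℕ, ∀ n : ℕ, N ≤ n → ∀ m : ℕ,
    K * m ≤ n ^ (k + 2) → ∃ Q : Finset (Fin (k + 3) → Fin n), NonAttacking Q ∧ Q.card ≤ m ∧
      ∀ P P₀ : Finset (Fin (k + 3) → Fin n), Q ⊆ P → NonAttacking P → IsMaximum P₀ →
        3 * P.card + m ≤ 3 * P₀.card + K * n ^ (k + 1) := by
  obtain ⟨L, hL⟩ : ∃ L, L = (2 ^ (k + 3)).factorial := ⟨_, rfl⟩
  have hL0 : 0 < L := hL ▸ Nat.factorial_pos _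
  obtain ⟨K, hK⟩ : ∃ K, K = 48 * 2 ^ (k + 1) + (12 * ((k + 2) * L) + 4) := ⟨_, rfl⟩
  refine ⟨K, 20 * (L + 1) + 46, fun n hn m hm2 => ?_⟩
  have ha : 0 < (n - 1) / L := Nat.div_pos (by omega) hL0
  have hq := minFac_gt (2 ^ (k + 3)) _ ha
  rw [← hL] at hq
  have hq1 := Nat.div_add_mod (n - 1) L
  have hq2 := Nat.mod_lt (n - 1) hL0
  obtain ⟨q, hqdef⟩ : ∃ q, q = L * ((n - 1) / L) + 1 := ⟨_, rfl⟩
  rw [← hqdef] at hq
  have hqn : q ≤ n := by omega
  obtain ⟨S, hS, hSc⟩ := exists_big (d := k + 2) hq (by omega) hqn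
  have hD := pow_le_add q n L hqn (by omega) (k + 1)
  have e1 : k + 1 + 1 = k + 2 := rfl
  rw [e1] at hD
  have hp := minFac_gt (2 ^ (k + 3)) (2 * n / (3 * L) + 1) (Nat.succ_pos _)
  rw [← hL] at hp
  have hp1 := Nat.div_add_mod (2 * n) (3 * L)
  have hp2 := Nat.mod_lt (2 * n) (show 0 < 3 * L by omega)
  obtain ⟨p, hpdef⟩ : ∃ p, p = L * (2 * n / (3 * L) + 1) + 1 := ⟨_, rfl⟩
  rw [← hpdef] at hp
  have hp3 : 3 * p = 3 * L * (2 * n / (3 * L)) + 3 * L + 3 := by rw [hpdef]; ring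
  have hlo : 2 * n ≤ 3 * p := by omega
  have hhi : 3 * p ≤ 2 * n + 3 * L + 3 := by omega
  have hp0 : 0 < p := by omega
  obtain ⟨J, hJ⟩ : ∃ J, J = n / 24 := ⟨_, rfl⟩
  obtain ⟨w, hw⟩ : ∃ w, w = n - p - J := ⟨_, rfl⟩
  have hw2 : p ≤ 3 * w := by omega
  have hK0 : 0 < K := by omega
  have hmJ : m ≤ J * p ^ (k + 1) := by
    have h1 : n ^ (k + 1) ≤ (2 * p) ^ (k + 1) := Nat.pow_le_pow_left (by omega) _
    have h2 : n ≤ 48 * J := by omega
    have h3 : 48 * 2 ^ (k + 1) ≤ K := by omega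
    apply Nat.le_of_mul_le_mul_left _ hK0
    calc K * m ≤ n ^ (k + 2) := hm2
      _ = n ^ (k + 1) * n := by ring
      _ ≤ (2 * p) ^ (k + 1) * (48 * J) := Nat.mul_le_mul h1 h2
      _ = (48 * 2 ^ (k + 1)) * (J * p ^ (k + 1)) := by rw [mul_pow]; ring
      _ ≤ K * (J * p ^ (k + 1)) := Nat.mul_le_mul_right _ h3
  have ht : m / p ≤ J * p ^ k := Nat.div_le_of_le_mul (by
    calc m ≤ J * p ^ (k + 1) := hmJ
      _ = p * (J * p ^ k) := by ring)
  obtain ⟨Q, hQ, hQc, hQP⟩ := core (k := k) (n := n) (p := p) (K := J) hp hp0 (by omega)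
    (by omega) hlo (m / p) ht
  refine ⟨Q, hQ, le_trans hQc (Nat.div_mul_le_self m p), fun P P₀ hsub hP hP₀ => ?_⟩
  have h1 := hQP P hsub hP
  rw [← hw] at h1
  have h2 : q ^ (k + 2) ≤ P₀.card := hSc ▸ hP₀.2 S hS
  have h3 := Nat.div_add_mod m p
  have h4 := Nat.mod_lt m hp0
  have h5 : p * (m / p) ≤ 3 * (m / p * w) := by
    calc p * (m / p) ≤ (3 * w) * (m / p) := Nat.mul_le_mul_right _ hw2
      _ = 3 * (m / p * w) := by ring
  have h6 : n ≤ n ^ (k + 1) := Nat.le_self_pow (by omega) n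
  have h7 : (12 * ((k + 2) * L) + 4) * n ^ (k + 1) ≤ K * n ^ (k + 1) :=
    Nat.mul_le_mul_right _ (by omega)
  have h8 : (12 * ((k + 2) * L) + 4) * n ^ (k + 1)
      = 12 * ((k + 2) * L * n ^ (k + 1)) + 4 * n ^ (k + 1) := by ring
  omega

theorem defect' (d : ℕ) (hd : 3 ≤ d) : ∃ K N : ℕ, ∀ n : ℕ, N ≤ n → ∀ m : ℕ,
    K * m ≤ n ^ (d - 1) → ∃ Q : Finset (Fin d → Fin n), NonAttacking Q ∧ Q.card ≤ m ∧
      ∀ P P₀ : Finset (Fin d → Fin n), Q ⊆ P → NonAttacking P → IsMaximum P₀ →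
        3 * P.card + m ≤ 3 * P₀.card + K * n ^ (d - 2) := by
  obtain ⟨k, rfl⟩ : ∃ k, d = k + 3 := ⟨d - 3, by omega⟩
  exact defect k

/-- consequence: the completion threshold is `O(n ^ (d - 2))` for every large `n` -/
theorem threshold_all (d : ℕ) (hd : 3 ≤ d) : ∃ K N : ℕ, ∀ n : ℕ, N ≤ n →
    ∃ Q : Finset (Fin d → Fin n), NonAttacking Q ∧ Q.card ≤ K * n ^ (d - 2) ∧
      ¬ ∃ P : Finset (Fin d → Fin n), Q ⊆ P ∧ IsMaximum P := by
  obtain ⟨K, N, h⟩ := defect' d hd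
  obtain ⟨k, rfl⟩ : ∃ k, d = k + 3 := ⟨d - 3, by omega⟩
  have e1 : k + 3 - 2 = k + 1 := rfl
  have e2 : k + 3 - 1 = k + 2 := rfl
  rw [e1, e2] at h
  rw [e1]
  refine ⟨K + 1, N + K * (K + 1) + 1, fun n hn => ?_⟩
  obtain ⟨Q, hQ, hc, hP⟩ := h n (by omega) ((K + 1) * n ^ (k + 1)) (by
    calc K * ((K + 1) * n ^ (k + 1)) = (K * (K + 1)) * n ^ (k + 1) := by ring
      _ ≤ n * n ^ (k + 1) := Nat.mul_le_mul_right _ (by omega)
      _ = n ^ (k + 2) := by ring)
  refine ⟨Q, hQ, hc, ?_⟩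
  rintro ⟨P, hsub, hmax⟩
  have h1 := hP P P hsub hmax.1 hmax
  have h2 : 1 ≤ n ^ (k + 1) := Nat.one_le_pow _ _ (by omega)
  have h3 : (K + 1) * n ^ (k + 1) = K * n ^ (k + 1) + n ^ (k + 1) := by ring
  omega

end Pool.Agent.MP_7e478a_co
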