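import Mathlib

set_option autoImplicit false

namespace Pool.Agent.MP_7e478a_co

/-- A queen on cell `x` of the `(n,d)`-board attacks the cell `y`. -/
def Attacks {d n : ℕ} (x y : Fin d → Fin n) : Prop :=
  ∃ t : ℤ, t ≠ 0 ∧ ∃ v : Fin d → ℤ, v ≠ 0 ∧ (∀ i, v i = -1 ∨ v i = 0 ∨ v i = 1) ∧
    ∀ i, ((y i : ℕ) : ℤ) - ((x i : ℕ) : ℤ) = t * v i

/-- A set of cells no two of which attack each other. -/
def NonAttacking {d n : ℕ} (Q : Finset (Fin d → Fin n)) : Prop :=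
  ∀ x ∈ Q, ∀ y ∈ Q, ¬ Attacks x y

/-- A non-attacking set of the largest possible size. -/
def IsMaximum {d n : ℕ} (P : Finset (Fin d → Fin n)) : Prop :=
  NonAttacking P ∧ ∀ R : Finset (Fin d → Fin n), NonAttacking R → R.card ≤ P.card

end Pool.Agent.MP_7e478a_co
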