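import Pool.Agent.MP_7e478a_co.Defs

set_option autoImplicit false

namespace Pool.Agent.MP_7e478a_co

lemma weight_succ {d : ℕ} (v : Fin (d + 1) → ℤ) :
    ∑ i : Fin (d + 1), (2 : ℤ) ^ (i : ℕ) * v i
      = v 0 + 2 * ∑ i : Fin d, (2 : ℤ) ^ (i : ℕ) * v i.succ := by
  rw [Fin.sum_univ_succ, Finset.mul_sum]
  simp only [Fin.val_zero, pow_zero, one_mul, Fin.val_succ, pow_succ]
  congr 1
  apply Finset.sum_congr rfl
  intro i _
  ring

lemma weight_bound : ∀ (d : ℕ) (v : Fin d → ℤ), (∀ i, v i = -1 ∨ v i = 0 ∨ v i = 1) →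
    |∑ i : Fin d, (2 : ℤ) ^ (i : ℕ) * v i| < 2 ^ d := by
  intro d
  induction d with
  | zero => intro v _; simp
  | succ d ih =>
    intro v hv
    rw [weight_succ]
    have h1 := ih (fun i => v i.succ) (fun i => hv i.succ)
    have h0 := hv 0
    rw [abs_lt] at h1 ⊢
    rw [pow_succ]
    constructor <;> omega

lemma weight_zero : ∀ (d : ℕ) (v : Fin d → ℤ), (∀ i, v i = -1 ∨ v i = 0 ∨ v i = 1) →
    ∑ i : Fin d, (2 : ℤ) ^ (i : ℕ) * v i = 0 → v = 0 := by
  intro d
  induction d with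
  | zero => intro v _ _; funext i; exact i.elim0
  | succ d ih =>
    intro v hv h
    rw [weight_succ] at h
    have h0 := hv 0
    have h1 : v 0 = 0 := by omega
    have h2 : ∑ i : Fin d, (2 : ℤ) ^ (i : ℕ) * v i.succ = 0 := by omega
    have h3 := ih (fun i => v i.succ) (fun i => hv i.succ) h2
    funext i
    refine Fin.cases ?_ (fun j => ?_) i
    · exact h1
    · exact congrFun h3 j

/-- the weight of a cell -/
def wt {d n : ℕ} (x : Fin d → Fin n) : ℤ := ∑ i : Fin d, (2 : ℤ) ^ (i : ℕ) * ((x i : ℕ) : ℤ)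

lemma wt_cons {d n : ℕ} (a : Fin n) (y : Fin d → Fin n) :
    wt (Fin.cons a y : Fin (d + 1) → Fin n) = ((a : ℕ) : ℤ) + 2 * wt y := by
  unfold wt
  rw [weight_succ]
  simp

lemma attacks_symm {d n : ℕ} {x y : Fin d → Fin n} (h : Attacks x y) : Attacks y x := by
  obtain ⟨t, ht, v, hv0, hv, h⟩ := h
  refine ⟨-t, neg_ne_zero.mpr ht, v, hv0, hv, fun i => ?_⟩
  have := h i
  linarith

lemma not_attacks_self {d n : ℕ} (x : Fin d → Fin n) : ¬ Attacks x x := by
  rintro ⟨t, ht, v, hv0, hv, h⟩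
  apply hv0
  funext i
  have := h i
  simp only [sub_self] at this
  rcases mul_eq_zero.mp this.symm with h1 | h1
  · exact absurd h1 ht
  · exact h1

lemma not_attacks_of_dvd {d n : ℕ} (hn : 2 ^ d < n.minFac) (x y : Fin d → Fin n)
    (hx : (n : ℤ) ∣ wt x) (hy : (n : ℤ) ∣ wt y) : ¬ Attacks x y := by
  rintro ⟨t, ht, v, hv0, hv, h⟩
  have hs : wt y - wt x = t * ∑ i : Fin d, (2 : ℤ) ^ (i : ℕ) * v i := by
    unfold wt
    rw [← Finset.sum_sub_distrib, Finset.mul_sum]
    apply Finset.sum_congr rfl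
    intro i _
    rw [← mul_sub, h i]
    ring
  set s := ∑ i : Fin d, (2 : ℤ) ^ (i : ℕ) * v i with hsdef
  have hs0 : s ≠ 0 := fun h0 => hv0 (weight_zero d v hv h0)
  have hsb : |s| < 2 ^ d := weight_bound d v hv
  have hlt : s.natAbs < n.minFac := by
    have h1 : ((s.natAbs : ℕ) : ℤ) < ((2 ^ d : ℕ) : ℤ) := by
      rw [Int.natCast_natAbs]; push_cast; exact hsb
    have h2 : s.natAbs < 2 ^ d := by exact_mod_cast h1
    omega
  have hcop : n.Coprime s.natAbs := Nat.coprime_of_lt_minFac (Int.natAbs_ne_zero.mpr hs0) hlt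
  have hdvd : (n : ℤ) ∣ t * s := hs ▸ dvd_sub hy hx
  have hcop' : IsCoprime (n : ℤ) s := by
    rw [Int.isCoprime_iff_gcd_eq_one]
    simpa [Int.gcd] using hcop
  have hnt : (n : ℤ) ∣ t := hcop'.dvd_of_dvd_mul_right hdvd
  have hle : (n : ℤ) ≤ |t| := Int.le_of_dvd (abs_pos.mpr ht) ((dvd_abs _ _).mpr hnt)
  obtain ⟨i, hi⟩ : ∃ i, v i ≠ 0 := by
    by_contra hc
    push Not at hc
    exact hv0 (funext hc)
  have h1 := h i
  have h2 : ((x i : ℕ) : ℤ) < n := by exact_mod_cast (x i).isLt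
  have h3 : ((y i : ℕ) : ℤ) < n := by exact_mod_cast (y i).isLt
  have h4 : (0 : ℤ) ≤ ((x i : ℕ) : ℤ) := by positivity
  have h5 : (0 : ℤ) ≤ ((y i : ℕ) : ℤ) := by positivity
  rcases hv i with h6 | h6 | h6
  · rw [h6] at h1
    rcases abs_cases t with h7 | h7 <;> omega
  · exact hi h6
  · rw [h6] at h1
    rcases abs_cases t with h7 | h7 <;> omega

/-- There is a non-attacking set of size `n ^ d` on the `(n, d+1)`-board. -/
lemma exists_solution {d n : ℕ} (hn : 2 ^ (d + 1) < n.minFac) (hn0 : 0 < n) :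
    ∃ S : Finset (Fin (d + 1) → Fin n), NonAttacking S ∧ S.card = n ^ d := by
  have hn0' : (0 : ℤ) < n := by exact_mod_cast hn0
  let g : (Fin d → Fin n) → Fin n := fun y =>
    ⟨((-2 * wt y) % n).toNat, by
      have h1 := Int.emod_lt_of_pos (-2 * wt y) hn0'
      have h2 := Int.emod_nonneg (-2 * wt y) hn0'.ne'
      omega⟩
  let f : (Fin d → Fin n) → (Fin (d + 1) → Fin n) := fun y => Fin.cons (g y) y
  have hf : Function.Injective f := by
    intro y z hyz
    have := congrArg Fin.tail hyz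
    simpa [f] using this
  have hw : ∀ y, (n : ℤ) ∣ wt (f y) := by
    intro y
    simp only [f]
    rw [wt_cons]
    have h2 := Int.emod_nonneg (-2 * wt y) hn0'.ne'
    have h3 : ((g y : ℕ) : ℤ) = (-2 * wt y) % n := by
      simp only [g]
      exact Int.toNat_of_nonneg h2
    rw [h3]
    have h4 := Int.emod_add_mul_ediv (-2 * wt y) n
    exact ⟨-((-2 * wt y) / n), by linarith⟩
  refine ⟨Finset.univ.image f, ?_, ?_⟩
  · intro x hx y hy
    obtain ⟨x', -, rfl⟩ := Finset.mem_image.mp hx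
    obtain ⟨y', -, rfl⟩ := Finset.mem_image.mp hy
    exact not_attacks_of_dvd hn _ _ (hw x') (hw y')
  · rw [Finset.card_image_of_injective _ hf]
    simp

/-- A non-attacking set of size at least `n ^ d` meets every line in the first direction. -/
lemma meets_line {d n : ℕ} (P : Finset (Fin (d + 1) → Fin n)) (hP : NonAttacking P)
    (hc : n ^ d ≤ P.card) (z : Fin d → Fin n) : ∃ p ∈ P, Fin.tail p = z := by
  have hinj : Set.InjOn (fun p : Fin (d + 1) → Fin n => (Fin.tail p : Fin d → Fin n)) P := by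
    intro x hx y hy hxy
    by_contra hne
    apply hP x hx y hy
    have h0 : x 0 ≠ y 0 := by
      intro h0
      apply hne
      funext i
      refine Fin.cases h0 (fun j => ?_) i
      exact congrFun hxy j
    refine ⟨((y 0 : ℕ) : ℤ) - ((x 0 : ℕ) : ℤ), ?_, Fin.cons 1 0, ?_, ?_, ?_⟩
    · intro h
      apply h0
      apply Fin.ext
      omega
    · intro h
      have := congrFun h 0
      simp at this
    · intro i
      refine Fin.cases ?_ (fun j => ?_) i <;> simp
    · intro i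
      refine Fin.cases ?_ (fun j => ?_) i
      · simp
      · have : x j.succ = y j.succ := congrFun hxy j
        simp [this]
  have hcard : (P.image (fun p : Fin (d + 1) → Fin n => (Fin.tail p : Fin d → Fin n))).card
      = P.card := Finset.card_image_of_injOn hinj
  have huniv : P.image (fun p : Fin (d + 1) → Fin n => (Fin.tail p : Fin d → Fin n))
      = Finset.univ := by
    apply Finset.eq_univ_of_card
    apply le_antisymm (Finset.card_le_univ _)
    rw [hcard]
    simpa using hc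
  have hz : z ∈ P.image (fun p : Fin (d + 1) → Fin n => (Fin.tail p : Fin d → Fin n)) := by
    rw [huniv]; exact Finset.mem_univ _
  obtain ⟨p, hp, hpz⟩ := Finset.mem_image.mp hz
  exact ⟨p, hp, hpz⟩

theorem blocking (k n : ℕ) (hn : 2 ^ (k + 3) < n.minFac) :
    ∃ Q : Finset (Fin (k + 3) → Fin n), NonAttacking Q ∧ Q.card ≤ n ∧
      ¬ ∃ P : Finset (Fin (k + 3) → Fin n), Q ⊆ P ∧ IsMaximum P := by
  have h8 : 8 ≤ 2 ^ (k + 3) := by
    rw [pow_add]
    have := Nat.one_le_two_pow (n := k)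
    omega
  have hn0 : 0 < n := by
    rcases Nat.eq_zero_or_pos n with h | h
    · subst h
      rw [Nat.minFac_zero] at hn
      omega
    · exact h
  have hn8 : 8 < n := by
    have := Nat.minFac_le hn0
    omega
  have hodd : n % 2 = 1 := by
    by_contra h
    have h2 : 2 ∣ n := by omega
    have := Nat.minFac_le_of_dvd (le_refl 2) h2
    omega
  obtain ⟨m, hm⟩ : ∃ m, n = 2 * m + 1 := ⟨n / 2, by omega⟩
  let z : Fin n := ⟨0, hn0⟩
  let o : Fin n := ⟨1, by omega⟩
  let u : Fin n → Fin n := fun t => ⟨(m * t) % n, Nat.mod_lt _ hn0⟩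
  let q : Fin n → (Fin (k + 3) → Fin n) := fun t =>
    Fin.cons t (Fin.cons (u t) (fun _ => z))
  let e : Fin (k + 3) → Fin n := Fin.cons z (Fin.cons z (Fin.cons o (fun _ => z)))
  have hdiv : ∀ t : Fin n, (n : ℤ) ∣ ((t : ℕ) : ℤ) + 2 * ((u t : ℕ) : ℤ) := by
    intro t
    have h1 : n ∣ (t : ℕ) + 2 * ((m * t) % n) := by
      have h2 := Nat.mod_add_div (m * t) n
      have h3 : (t : ℕ) + 2 * ((m * t) % n) + n * (2 * ((m * t) / n)) = n * t := by
        have : n * (t : ℕ) = (2 * m + 1) * t := by rw [← hm]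
        nlinarith
      have h4 : n ∣ (t : ℕ) + 2 * ((m * t) % n) + n * (2 * ((m * t) / n)) :=
        h3 ▸ Dvd.intro _ rfl
      exact (Nat.dvd_add_left (Dvd.intro _ rfl)).mp h4
    exact_mod_cast h1
  have hwq : ∀ t, (n : ℤ) ∣ wt (q t) := by
    intro t
    have h0 : wt (fun _ : Fin (k + 1) => z) = 0 := by simp [wt, z]
    simp only [q]
    rw [wt_cons, wt_cons, h0]
    simpa using hdiv t
  have hu0 : ∀ t : Fin n, t ≠ z → (u t : ℕ) ≠ 0 := by
    intro t ht h0
    have h1 := hdiv t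
    rw [h0] at h1
    simp only [Nat.cast_zero, mul_zero, add_zero] at h1
    have h2 : n ∣ (t : ℕ) := by exact_mod_cast h1
    have h3 := Nat.eq_zero_of_dvd_of_lt h2 t.isLt
    exact ht (Fin.ext h3)
  have hqe : ∀ t : Fin n, t ≠ z → ¬ Attacks (q t) e := by
    rintro t ht ⟨s, hs, v, hv0, hv, h⟩
    have h0 := h 0
    have h1 := h (Fin.succ 0)
    have h2 := h (Fin.succ (Fin.succ 0))
    simp only [q, e, Fin.cons_zero, Fin.cons_succ, z, o, Nat.cast_zero, Nat.cast_one,
      zero_sub, sub_zero] at h0 h1 h2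
    have hs1 : s = 1 ∨ s = -1 := by
      rcases hv (Fin.succ (Fin.succ 0)) with h3 | h3 | h3 <;> rw [h3] at h2 <;> omega
    have ht1 : ((t : ℕ) : ℤ) ≤ 1 := by
      rcases hs1 with h4 | h4 <;> rcases hv 0 with h3 | h3 | h3 <;> rw [h3, h4] at h0 <;> omega
    have hu1 : ((u t : ℕ) : ℤ) ≤ 1 := by
      rcases hs1 with h4 | h4 <;> rcases hv (Fin.succ 0) with h3 | h3 | h3 <;>
        rw [h3, h4] at h1 <;> omega
    have h5 := hdiv t
    have h6 := hu0 t ht
    have h7 : (0 : ℤ) < ((t : ℕ) : ℤ) + 2 * ((u t : ℕ) : ℤ) := by omega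
    have h8 := Int.le_of_dvd h7 h5
    omega
  refine ⟨insert e ((Finset.univ.erase z).image q), ?_, ?_, ?_⟩
  · intro x hx y hy
    rcases Finset.mem_insert.mp hx with rfl | hx
    · rcases Finset.mem_insert.mp hy with rfl | hy
      · exact not_attacks_self _
      · obtain ⟨t, ht, rfl⟩ := Finset.mem_image.mp hy
        exact fun h => hqe t (Finset.ne_of_mem_erase ht) (attacks_symm h)
    · obtain ⟨t, ht, rfl⟩ := Finset.mem_image.mp hx
      rcases Finset.mem_insert.mp hy with rfl | hy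
      · exact hqe t (Finset.ne_of_mem_erase ht)
      · obtain ⟨t', -, rfl⟩ := Finset.mem_image.mp hy
        exact not_attacks_of_dvd hn _ _ (hwq t) (hwq t')
  · have h1 := Finset.card_insert_le e ((Finset.univ.erase z).image q)
    have h2 : ((Finset.univ.erase z).image q).card ≤ (Finset.univ.erase z).card :=
      Finset.card_image_le
    have h3 : (Finset.univ.erase z).card = n - 1 := by
      rw [Finset.card_erase_of_mem (Finset.mem_univ _)]
      simp
    omega
  · rintro ⟨P, hQP, hP, hmax⟩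
    obtain ⟨S, hS, hScard⟩ := exists_solution (d := k + 2) hn hn0
    have hc : n ^ (k + 2) ≤ P.card := hScard ▸ hmax S hS
    obtain ⟨p, hp, hpz⟩ := meets_line P hP hc (fun _ => z)
    have hp' : p = Fin.cons (p 0) (fun _ => z) := by
      rw [← hpz]
      simp
    by_cases h0 : p 0 = z
    · have he : e ∈ P := hQP (Finset.mem_insert_self _ _)
      apply hP p hp e he
      refine ⟨1, one_ne_zero, Fin.cons 0 (Fin.cons 0 (Fin.cons 1 0)), ?_, ?_, ?_⟩
      · intro h
        have := congrFun h (Fin.succ (Fin.succ 0))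
        simp only [Fin.cons_zero, Fin.cons_succ] at this
        simp at this
      · intro i
        refine Fin.cases ?_ (fun j => ?_) i
        · simp
        · refine Fin.cases ?_ (fun l => ?_) j
          · simp
          · refine Fin.cases ?_ (fun r => ?_) l
            · simp only [Fin.cons_zero, Fin.cons_succ]; simp
            · simp
      · intro i
        rw [hp', h0]
        refine Fin.cases ?_ (fun j => ?_) i
        · simp [e]
        · refine Fin.cases ?_ (fun l => ?_) j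
          · simp only [e, Fin.cons_zero, Fin.cons_succ]; simp
          · refine Fin.cases ?_ (fun r => ?_) l
            · simp only [e, Fin.cons_zero, Fin.cons_succ]; simp [z, o]
            · simp only [e, Fin.cons_succ]; simp
    · have hq : q (p 0) ∈ P := hQP (Finset.mem_insert_of_mem
        (Finset.mem_image.mpr ⟨p 0, Finset.mem_erase.mpr ⟨h0, Finset.mem_univ _⟩, rfl⟩))
      apply hP p hp _ hq
      have hu := hu0 (p 0) h0
      refine ⟨((u (p 0) : ℕ) : ℤ), by exact_mod_cast hu, Fin.cons 0 (Fin.cons 1 0), ?_, ?_, ?_⟩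
      · intro h
        have := congrFun h (Fin.succ 0)
        simp at this
      · intro i
        refine Fin.cases ?_ (fun j => ?_) i
        · simp
        · refine Fin.cases ?_ (fun l => ?_) j <;> simp
      · intro i
        have hpi : ∀ j : Fin (k + 2), p j.succ = z := fun j => congrFun hpz j
        refine Fin.cases ?_ (fun j => ?_) i
        · simp [q]
        · rw [hpi j]
          refine Fin.cases ?_ (fun l => ?_) j
          · simp only [q, Fin.cons_zero, Fin.cons_succ]; simp [z]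
          · simp only [q, Fin.cons_succ]; simp

theorem blocking' (d : ℕ) (hd : 3 ≤ d) (n : ℕ) (hn : 2 ^ d < n.minFac) :
    ∃ Q : Finset (Fin d → Fin n), NonAttacking Q ∧ Q.card ≤ n ∧
      ¬ ∃ P : Finset (Fin d → Fin n), Q ⊆ P ∧ IsMaximum P := by
  obtain ⟨k, rfl⟩ : ∃ k, d = k + 3 := ⟨d - 3, by omega⟩
  exact blocking k n hn

theorem negated_form (d : ℕ) (hd : 3 ≤ d) (c : ℝ) (hc : 0 < c) (N : ℕ) :
    ∃ n : ℕ, N ≤ n ∧ ∃ Q : Finset (Fin d → Fin n), NonAttacking Q ∧
      (Q.card : ℝ) ≤ (n : ℝ) ^ (d - 1) / c ∧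
      ¬ ∃ P : Finset (Fin d → Fin n), Q ⊆ P ∧ IsMaximum P := by
  obtain ⟨p, hp, hprime⟩ := Nat.exists_infinite_primes (max (max N (2 ^ d + 1)) ⌈c⌉₊)
  have h1 : N ≤ p := le_trans (le_trans (le_max_left _ _) (le_max_left _ _)) hp
  have h2 : 2 ^ d + 1 ≤ p := le_trans (le_trans (le_max_right _ _) (le_max_left _ _)) hp
  have h3 : ⌈c⌉₊ ≤ p := le_trans (le_max_right _ _) hp
  have h4 : c ≤ p := le_trans (Nat.le_ceil c) (by exact_mod_cast h3)
  obtain ⟨Q, hQ, hcard, hno⟩ := blocking' d hd p (by rw [hprime.minFac_eq]; omega)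
  refine ⟨p, h1, Q, hQ, ?_, hno⟩
  rw [le_div_iff₀ hc]
  have h5 : (Q.card : ℝ) ≤ p := by exact_mod_cast hcard
  have h6 : (1 : ℝ) ≤ p := by exact_mod_cast hprime.one_lt.le
  have h7 : (p : ℝ) ^ 2 ≤ (p : ℝ) ^ (d - 1) := pow_le_pow_right₀ h6 (by omega)
  calc (Q.card : ℝ) * c ≤ p * p := by
        apply mul_le_mul h5 h4 hc.le (by positivity)
    _ = (p : ℝ) ^ 2 := by ring
    _ ≤ _ := h7

end Pool.Agent.MP_7e478a_co
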